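import Pool.Agent.ZRT.StmtsB

/-! Row LSM of squad ZRT: a continuous lift of a smooth curve is smooth. -/

set_option autoImplicit false

noncomputable section

open scoped ContDiff Topology RealInnerProductSpace
open Set Filter

namespace Pool.Agent.ZRT.H44

open Pool.Agent.RF Pool.Agent.MVS

/-- a continuous local lift of a smooth curve through a local diffeomorphism is smooth -/
theorem lift_smooth {f : E5 → E5} {c y : ℝ → E5} {s : ℝ} (hf : ContDiffAt ℝ ∞ f (y s))
    (hb : Function.Bijective (fderiv ℝ f (y s))) (hc : ContDiffAt ℝ ∞ c s)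
    (hy : ContinuousAt y s) (he : ∀ᶠ t in 𝓝 s, f (y t) = c t) : ContDiffAt ℝ ∞ y s := by
  have hd : DifferentiableAt ℝ f (y s) := hf.differentiableAt (by simp)
  obtain ⟨e, hef⟩ : ∃ e : E5 ≃L[ℝ] E5, (e : E5 →L[ℝ] E5) = fderiv ℝ f (y s) := by
    refine ⟨(LinearEquiv.ofBijective (fderiv ℝ f (y s)).toLinearMap hb).toContinuousLinearEquiv, ?_⟩
    ext x
    rfl
  have hf' : HasFDerivAt f (e : E5 →L[ℝ] E5) (y s) := by
    rw [hef]
    exact hd.hasFDerivAt
  have hn : (∞ : WithTop ℕ∞) ≠ 0 := by simp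
  have hstr := hf.hasStrictFDerivAt' hf' hn
  have h1 : ContDiffAt ℝ ∞ (hf.localInverse hf' hn) (f (y s)) := hf.to_localInverse hf' hn
  have h2 : ∀ᶠ x in 𝓝 (y s), hf.localInverse hf' hn (f x) = x := hstr.eventually_left_inverse
  have h3 : ∀ᶠ t in 𝓝 s, hf.localInverse hf' hn (f (y t)) = y t := hy.eventually h2
  have hes : f (y s) = c s := he.self_of_nhds
  rw [hes] at h1
  have h4 : ContDiffAt ℝ ∞ (fun t => hf.localInverse hf' hn (c t)) s := h1.comp s hc
  refine h4.congr_of_eventuallyEq ?_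
  filter_upwards [h3, he] with t ht hte
  rw [← hte, ht]

theorem lsm (xde : XdeStatement) : LsmStatement := by
  intro G ex hG hsec hex m hm c y hc hy s hs
  have hs' : s ∈ Icc (0 : ℝ) 1 := Ioo_subset_Icc_self hs
  have hcd : ContDiff ℝ ∞ (fun u : E5 => ex (m, u)) := by
    have h1 : ContDiffOn ℝ ∞ (fun u : E5 => ex (m, u)) univ :=
      hex.smooth.comp (contDiff_const.prodMk contDiff_id).contDiffOn fun u _ => ⟨hm, mem_univ _⟩
    exact contDiffOn_univ.mp h1
  have hIcc : Icc (0 : ℝ) 1 ∈ 𝓝 s := Icc_mem_nhds hs.1 hs.2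
  refine ContDiffAt.contDiffWithinAt ?_
  refine lift_smooth (f := fun u : E5 => ex (m, u)) (c := c) hcd.contDiffAt
    (xde G ex hG hsec hex m hm (y s) (hy.lt s hs')).2 hc.contDiffAt
    (hy.cont.continuousAt hIcc) ?_
  filter_upwards [hIcc] with t ht
  exact hy.eq t ht

end Pool.Agent.ZRT.H44
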